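import Pool.Agent.H3.OD.Targets
import Pool.Agent.H27.LV.Curve
import Pool.Agent.H64.SC.Api

/-!
# MP_70ba79_ag, row LTF: the place of the field of series in `u`
-/

set_option autoImplicit false

namespace Pool.Agent.H54.OD2

open MvPolynomial SC Pool.Agent.H92.OD Pool.Agent.H3.OD
open Pool.Agent.H27.LV (ge)

theorem exists_int {k : Type} [Field k] {y : HS k} (hy : y ≠ 0) (hL : Lat 1 y) :
    ∃ m : ℤ, IsO y m := by
  obtain ⟨r, hr⟩ := exists_IsO hy
  obtain ⟨m, hm⟩ := hL r hr.1
  rw [Nat.cast_one, mul_one] at hm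
  exact ⟨m, hm ▸ hr⟩

theorem pf_LTF (LTN : T_LTN) : T_LTF := by
  classical
  intro k _ _
  obtain ⟨L, hL⟩ := LTN k 1 one_pos
  have hm : ∀ y : L, ∃ m : ℤ, (y ≠ 0 → IsO (y : HS k) m) ∧ (y = 0 → m = 0) := by
    intro y
    by_cases hy : y = 0
    · exact ⟨0, fun h => absurd hy h, fun _ => rfl⟩
    · obtain ⟨m, hm⟩ := exists_int (fun h => hy (Subtype.ext h)) ((hL _).1 y.2)
      exact ⟨m, fun _ => hm, fun h => absurd h hy⟩
  choose o ho ho0 using hm
  have huniq : ∀ (y : L) (m : ℤ), IsO (y : HS k) m → o y = m := by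
    intro y m h
    have hy : y ≠ 0 := fun h0 => h.ne_zero (by rw [h0]; rfl)
    exact_mod_cast (ho y hy).unique h
  have hu : (sg 1 1 : HS k) ∈ L := (hL _).2 fun r hr => by
    rw [cf_sg] at hr
    by_cases h : r = 1
    · exact ⟨1, by rw [h]; norm_num⟩
    · rw [if_neg h] at hr
      exact absurd rfl hr
  have hsg : ∀ (r : ℚ) (c : k), c ≠ 0 → IsO (sg r c) r := fun r c hc =>
    ⟨by rw [cf_sg, if_pos rfl]; exact hc, geO_sg r c⟩
  let v : DV k L :=
    { ord := o
      ord_zero := ho0 0 rfl
      ord_mul := by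
        intro x y hx hy
        apply huniq
        have h := (ho x hx).mul (ho y hy)
        push_cast
        exact h
      ord_add := by
        intro x y hx hy hxy
        have h1 := ho x hx
        have h2 := ho y hy
        have h3 := ho (x + y) hxy
        by_contra hlt
        rw [not_le] at hlt
        have h4 : geO ((min (o x) (o y) : ℤ) : ℚ) ((x : HS k) + (y : HS k)) := geO_add
          (geO_mono h1.2 (Int.cast_le.2 (min_le_left _ _)))
          (geO_mono h2.2 (Int.cast_le.2 (min_le_right _ _)))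
        exact h3.1 (h4 _ (by exact_mod_cast hlt))
      ord_base := by
        intro c
        by_cases hc : c = 0
        · rw [hc, map_zero]
          exact ho0 0 rfl
        · apply huniq
          have h := hsg 0 c hc
          rw [Int.cast_zero]
          exact h
      ord_surj := by
        refine ⟨⟨sg 1 1, hu⟩, fun h => ?_, huniq _ 1 ?_⟩
        · have h1 := congrArg Subtype.val h
          exact (hsg 1 (1 : k) one_ne_zero).ne_zero h1
        · rw [Int.cast_one]
          exact hsg 1 (1 : k) one_ne_zero }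
  refine ⟨L, v, hL, ?_, fun y hy => ho y hy⟩
  intro z hz
  refine ⟨cf (z : HS k) 0, ?_⟩
  by_cases h0 : z - algebraMap k L (cf (z : HS k) 0) = 0
  · exact Or.inl h0
  · refine Or.inr ?_
    have h1 := ho _ h0
    show 1 ≤ o (z - algebraMap k L (cf (z : HS k) 0))
    have hz' : geO 0 (z : HS k) := by
      by_cases hz0 : z = 0
      · rw [hz0]
        exact geO_zero 0
      · exact geO_mono (ho z hz0).2 (by exact_mod_cast hz)
    by_contra hlt
    have h2 : o (z - algebraMap k L (cf (z : HS k) 0)) ≤ 0 := by omega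
    apply h1.1
    show cf (((z : HS k)) - sg 0 (cf (z : HS k) 0)) _ = 0
    rw [cf_sub, cf_sg]
    rcases h2.lt_or_eq with h3 | h3
    · rw [if_neg (by
        have : ((o (z - algebraMap k L (cf (z : HS k) 0)) : ℤ) : ℚ) < 0 := by exact_mod_cast h3
        exact this.ne), hz' _ (by exact_mod_cast h3), sub_zero]
    · rw [h3, Int.cast_zero, if_pos rfl, sub_self]

end Pool.Agent.H54.OD2
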